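import Pool.Agent.Helper15.AB.GoalsE

/-! Packet ATL of project AB (MP_1ef41b_an, helper15). -/

open MeasureTheory Set Filter Topology
open scoped ContDiff

noncomputable section

namespace Pool.Agent.Helper58.AB

open Pool.Agent.Helper24.AB Pool.Agent.Helper15.AB

theorem atl : S_ATL := by
  intro a A s hp
  have ha : 0 < a := hp.a_pos
  have hA : 0 < A := hp.A_pos
  have hden : ∀ x : ℝ, |x| < a → 0 < a ^ 2 - x ^ 2 := by
    intro x hx
    have := sq_lt_sq.mpr (by rwa [abs_of_pos ha] : |x| < |a|)
    linarith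
  have h4 : ∀ x, 19 / 20 * a ≤ |x| → Atl a A s x = 4 * A ^ 2 / a ^ 2 := by
    intro x hx
    unfold Atl
    rw [if_neg (not_lt.mpr hx)]
  have hK : ∀ x, |x| < a → Atl a A s x = s x ^ 2 / (a ^ 2 - x ^ 2) := by
    intro x hx
    by_cases h : |x| < 19 / 20 * a
    · unfold Atl
      rw [if_pos h]
    · rw [not_lt] at h
      rw [h4 x h, hp.edge x h hx]
      have h1 := hden x hx
      rw [div_pow, mul_pow, Real.sq_sqrt h1.le]
      field_simp
      ring
  refine ⟨?_, ?_, ?_, h4⟩
  · rw [contDiff_iff_contDiffAt]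
    intro x
    by_cases h : |x| < a
    · have hx : x ∈ Ioo (-a) a := abs_lt.mp h
      have hs : ContDiffAt ℝ ∞ s x := hp.smooth.contDiffAt (isOpen_Ioo.mem_nhds hx)
      have hd : ContDiffAt ℝ ∞ (fun y : ℝ => s y ^ 2 / (a ^ 2 - y ^ 2)) x := by
        apply ContDiffAt.div (hs.pow 2)
        · exact contDiffAt_const.sub (contDiffAt_id.pow 2)
        · exact (hden x h).ne'
      refine hd.congr_of_eventuallyEq ?_
      filter_upwards [isOpen_Ioo.mem_nhds hx] with y hy
      exact hK y (abs_lt.mpr hy)
    · rw [not_lt] at h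
      have h1 : 19 / 20 * a < |x| := by linarith
      have hc : ContDiffAt ℝ ∞ (fun _ : ℝ => 4 * A ^ 2 / a ^ 2) x := contDiffAt_const
      refine hc.congr_of_eventuallyEq ?_
      have ho : IsOpen {y : ℝ | 19 / 20 * a < |y|} := isOpen_lt continuous_const continuous_abs
      filter_upwards [ho.mem_nhds h1] with y hy
      exact h4 y (le_of_lt hy)
  · intro x
    by_cases h : |x| < a
    · rw [hK x h]
      have := hp.pos x (abs_lt.mp h)
      have := hden x h
      positivity
    · rw [not_lt] at h
      rw [h4 x (by linarith)]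
      positivity
  · intro x hx
    rw [hK x hx]
    exact div_mul_cancel₀ _ (hden x hx).ne'

end Pool.Agent.Helper58.AB
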