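import Pool.Agent.Helper15.AB.GoalsT

/-! Packet IMG of project AB (MP_1ef41b_an, helper15): the image of a tube. -/

open MeasureTheory Set Filter Topology
open scoped ContDiff

noncomputable section

namespace Pool.Agent.Helper58.AB

open Pool.Agent.Helper24.AB Pool.Agent.Helper15.AB

theorem img (grl : S_GRL) (fnd : S_FND) (invf : S_INVF) (unb : S_UNB) (clw : S_CLW)
    (linv : S_LINV) : S_IMG := by
  intro η a r W Θ hT hE
  obtain ⟨hWo, hcl, -, invW, invC⟩ := clw η a r W hT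
  obtain ⟨hUo, hUb⟩ := unb η
  have hsub : closure W ⊆ Unb η := hT.sub
  have hWU : W ⊆ Unb η := subset_closure.trans hsub
  have hcont : ContinuousOn Θ (Unb η) := hE.holo.continuousOn
  have hΘinv : ∀ P ∈ Unb η, ∀ P', GamRel P P' → Θ P' = Θ P := by
    apply invf (Unb η) Θ (fun P P' h hP => grl.2.2.2.2.1 η P P' h hP)
    exact fun P hP => ⟨hE.inv_g P hP, fun k => hE.inv_t P hP k⟩
  -- compactness
  set K : Set V4 := {P | ∀ i, 0 ≤ (P i).im ∧ (P i).im ≤ 2 * Real.pi} with hK
  have hKc : IsClosed K := by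
    have : K = ⋂ i : Fin 4, {P : V4 | 0 ≤ (P i).im ∧ (P i).im ≤ 2 * Real.pi} := by
      ext P; simp [hK]
    rw [this]
    apply isClosed_iInter
    intro i
    have hc : Continuous fun P : V4 => (P i).im := Complex.continuous_im.comp (continuous_apply i)
    exact (isClosed_le continuous_const hc).inter (isClosed_le hc continuous_const)
  have hcomp : IsCompact (closure W ∩ K) := by
    apply Metric.isCompact_of_isClosed_isBounded (isClosed_closure.inter hKc)
    apply hUb.subset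
    rintro P ⟨h1, h2⟩
    exact ⟨hsub h1, h2⟩
  have himg : Θ '' closure W = Θ '' (closure W ∩ K) := by
    apply Subset.antisymm
    · rintro _ ⟨P, hP, rfl⟩
      obtain ⟨P', hB, hG⟩ := fnd.1 P
      refine ⟨P', ⟨invC P P' hG hP, fun i => ⟨(hB i).1, (hB i).2.le⟩⟩, ?_⟩
      exact hΘinv P (hsub hP) P' hG
    · exact image_mono inter_subset_left
  have hcomp' : IsCompact (Θ '' closure W) := by
    rw [himg]
    exact hcomp.image_of_continuousOn (hcont.mono (inter_subset_left.trans hsub))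
  have hmono : Θ '' W ⊆ Θ '' closure W := image_mono subset_closure
  refine ⟨?_, ?_, ?_, ?_, ?_, ?_, ?_⟩
  · rw [isOpen_iff_mem_nhds]
    rintro _ ⟨P, hP, rfl⟩
    obtain ⟨S, Ψ, hS, hPS, -, -, hSU, -⟩ := linv η Θ hE P hP
    exact mem_of_superset (hS.mem_nhds hPS) (fun z hz => ⟨Ψ z, (hSU z hz).1, (hSU z hz).2⟩)
  · rw [isOpen_iff_mem_nhds]
    rintro _ ⟨P, hP, rfl⟩
    obtain ⟨S, Ψ, hS, hPS, hΨ, hΨP, hSU, -⟩ := linv η Θ hE P (hWU hP)
    have h1 : IsOpen (S ∩ Ψ ⁻¹' W) := hΨ.continuousOn.isOpen_inter_preimage hS hWo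
    have h2 : Θ P ∈ S ∩ Ψ ⁻¹' W := ⟨hPS, by
      change Ψ (Θ P) ∈ W
      rw [hΨP]; exact hP⟩
    exact mem_of_superset (h1.mem_nhds h2) (fun z hz => ⟨Ψ z, hz.2, (hSU z hz.1).2⟩)
  · exact hT.conn.image Θ (hcont.mono hWU)
  · exact hcomp'.isBounded.subset hmono
  · apply Subset.antisymm
    · exact closure_minimal hmono hcomp'.isClosed
    · exact (hcont.mono hsub).image_closure
  · rintro P hP ⟨P', hP', h⟩
    exact invW P' P (hE.inj P' (hWU hP') P hP h) hP'
  · rintro P hP ⟨P', hP', h⟩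
    exact invC P' P (hE.inj P' (hsub hP') P hP h) hP'

end Pool.Agent.Helper58.AB
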