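import Pool.Agent.Helper24.AB.AN.Goals

/-! Packet IND of project AB (MP_1ef41b_an, helper24): uniform finite difference estimates. -/

open MeasureTheory Set Filter Topology
open scoped ContDiff

noncomputable section

namespace Pool.Agent.Helper58.AB

open Pool.Agent.Helper24.AB

theorem Dh_add (h : ℝ) (X Y : ℂ → ℂ) :
    Dh h (fun w => X w + Y w) = fun w => Dh h X w + Dh h Y w := by
  funext w; simp only [Dh]; ring

theorem Dh_sub (h : ℝ) (X Y : ℂ → ℂ) :
    Dh h (fun w => X w - Y w) = fun w => Dh h X w - Dh h Y w := by
  funext w; simp only [Dh]; ring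

theorem Dh_mul (h : ℝ) (f g : ℂ → ℂ) :
    Dh h (fun w => f w * g w) = fun w => Dh h f w * tauh h g w + f w * Dh h g w := by
  funext w; simp only [Dh, tauh]; ring

theorem Dh_tauh (h : ℝ) (X : ℂ → ℂ) : Dh h (tauh h X) = tauh h (Dh h X) := rfl

theorem Dh_conj (h : ℝ) (X : ℂ → ℂ) :
    Dh h (fun w => (starRingEnd ℂ) (X w)) = fun w => (starRingEnd ℂ) (Dh h X w) := by
  funext w
  simp only [Dh, map_div₀, map_sub, Complex.conj_ofReal]

theorem it_add (h : ℝ) (k : ℕ) : ∀ X Y : ℂ → ℂ,
    (Dh h)^[k] (fun w => X w + Y w) = fun w => (Dh h)^[k] X w + (Dh h)^[k] Y w := by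
  induction k with
  | zero => intro X Y; rfl
  | succ k ih =>
    intro X Y
    rw [Function.iterate_succ_apply, Dh_add, ih, ← Function.iterate_succ_apply,
      ← Function.iterate_succ_apply]

theorem it_sub (h : ℝ) (k : ℕ) : ∀ X Y : ℂ → ℂ,
    (Dh h)^[k] (fun w => X w - Y w) = fun w => (Dh h)^[k] X w - (Dh h)^[k] Y w := by
  induction k with
  | zero => intro X Y; rfl
  | succ k ih =>
    intro X Y
    rw [Function.iterate_succ_apply, Dh_sub, ih, ← Function.iterate_succ_apply,
      ← Function.iterate_succ_apply]

theorem it_tauh (h : ℝ) (k : ℕ) : ∀ X : ℂ → ℂ,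
    (Dh h)^[k] (tauh h X) = tauh h ((Dh h)^[k] X) := by
  induction k with
  | zero => intro X; rfl
  | succ k ih =>
    intro X
    rw [Function.iterate_succ_apply, Dh_tauh, ih, ← Function.iterate_succ_apply]

theorem it_conj (h : ℝ) (k : ℕ) : ∀ X : ℂ → ℂ,
    (Dh h)^[k] (fun w => (starRingEnd ℂ) (X w)) = fun w => (starRingEnd ℂ) ((Dh h)^[k] X w) := by
  induction k with
  | zero => intro X; rfl
  | succ k ih =>
    intro X
    rw [Function.iterate_succ_apply, Dh_conj, ih, ← Function.iterate_succ_apply]

/-- The sequence of solutions. -/
structure Quad where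
  z : ℂ → ℂ
  y : ℂ → ℂ
  A : ℂ → ℂ
  B : ℂ → ℂ

/-- One step. -/
def next (Φ : ℂ → ℝ) (h : ℝ) (q : Quad) : Quad where
  z := Dh h q.z
  y := fun w => Dh h q.y w - ch Φ h w * tauh h q.z w
  A := fun w => Dh h q.A w + (starRingEnd ℂ) (ch Φ h w) * tauh h (fun w => q.B w - q.y w) w
  B := fun w => Dh h q.B w - ch Φ h w * tauh h q.z w

theorem ind (hs : S_STEP) (hu : S_URAP) : S_IND := by
  intro a ι Φ W h z y F ha hW hh hΦ hWE hc hF hsol
  obtain ⟨uadd, usub, umul, utau, pconj, ptau, umem⟩ := hu a ι W ha hW
  -- Leibniz
  have leib : ∀ (k : ℕ) (c g : ι → ℂ → ℂ),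
      (∀ k : ℕ, UPol a W (fun j => (Dh (h j))^[k] (c j))) →
      (∀ i ≤ k, URap a W (fun j => (Dh (h j))^[i] (g j))) →
      URap a W (fun j => (Dh (h j))^[k] (fun w => c j w * g j w)) := by
    intro k
    induction k with
    | zero =>
      intro c g hc hg
      exact umul _ _ (hc 0) (hg 0 le_rfl)
    | succ k ih =>
      intro c g hc hg
      have e : (fun j => (Dh (h j))^[k + 1] (fun w => c j w * g j w)) =
          fun j w => (Dh (h j))^[k] (fun w => Dh (h j) (c j) w * tauh (h j) (g j) w) w +
            (Dh (h j))^[k] (fun w => c j w * Dh (h j) (g j) w) w := by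
        funext j
        rw [Function.iterate_succ_apply, Dh_mul, it_add]
      rw [e]
      apply uadd
      · apply ih (fun j => Dh (h j) (c j)) (fun j => tauh (h j) (g j))
        · intro k'
          have := hc (k' + 1)
          simpa only [Function.iterate_succ_apply] using this
        · intro i hi
          have := utau h _ hh (hg i (by omega))
          simpa only [it_tauh] using this
      · apply ih c (fun j => Dh (h j) (g j)) hc
        intro i hi
        have := hg (i + 1) (by omega)
        simpa only [Function.iterate_succ_apply] using this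
  -- conjugate coefficient
  have hcc : ∀ k : ℕ, UPol a W (fun j => (Dh (h j))^[k]
      (fun w => (starRingEnd ℂ) (ch (Φ j) (h j) w))) := by
    intro k
    have := pconj _ (hc k)
    simpa only [it_conj] using this
  have hzero : URap a W (fun (_ : ι) (_ : ℂ) => (0 : ℂ)) := by
    have := usub _ _ (hF 0) (hF 0)
    simpa using this
  have hzero' : ∀ k : ℕ, URap a W (fun j => (Dh (h j))^[k] (fun _ : ℂ => (0 : ℂ))) := by
    intro k
    have e : ∀ (j : ι), (Dh (h j))^[k] (fun _ : ℂ => (0 : ℂ)) = fun _ => 0 := by
      intro j
      induction k with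
      | zero => rfl
      | succ k ih =>
        rw [Function.iterate_succ_apply']
        rw [ih]
        funext w
        simp [Dh]
    simp only [e]
    exact hzero
  -- the sequence
  set q : ℕ → ι → Quad := fun n j => (next (Φ j) (h j))^[n] ⟨z j, y j, fun _ => 0, F j⟩ with hq
  have q0 : ∀ j, q 0 j = ⟨z j, y j, fun _ => 0, F j⟩ := fun j => rfl
  have qs : ∀ n j, q (n + 1) j = next (Φ j) (h j) (q n j) := by
    intro n j
    simp only [hq, Function.iterate_succ_apply']
  have key : ∀ m : ℕ,
      (∀ i k, i + k ≤ m → URap a W (fun j => (Dh (h j))^[k] (q i j).z) ∧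
        URap a W (fun j => (Dh (h j))^[k] (q i j).y) ∧
        URap a W (fun j => (Dh (h j))^[k] (q i j).A) ∧
        URap a W (fun j => (Dh (h j))^[k] (q i j).B)) ∧
      (∀ j, InDom a (Φ j) (q m j).z (q m j).y ∧ Eqn a (Φ j) (q m j).y (q m j).A (q m j).B) := by
    intro m
    induction m with
    | zero =>
      refine ⟨?_, hsol⟩
      intro i k hik
      obtain ⟨rfl, rfl⟩ : i = 0 ∧ k = 0 := by omega
      have hw := hWE (fun _ _ => 0) F z y hzero (hF 0) hsol
      exact ⟨hw.1, hw.2, hzero, hF 0⟩
    | succ m ihm =>
      obtain ⟨P, R⟩ := ihm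
      -- the equation
      have R' : ∀ j, InDom a (Φ j) (q (m+1) j).z (q (m+1) j).y ∧
          Eqn a (Φ j) (q (m+1) j).y (q (m+1) j).A (q (m+1) j).B := by
        intro j
        obtain ⟨Pz, Py, PA, PB⟩ := P m 0 (by omega)
        obtain ⟨_, C, N, hCN⟩ := hc 0
        have memW : ∀ X : ι → ℂ → ℂ, URap a W X →
            MemLp (fun w => ((W j w.im) ^ N : ℝ) • X j w) 2 (muS a) := by
          intro X hX
          obtain ⟨D, hD⟩ := hX.2 N
          refine ⟨?_, lt_of_le_of_lt (hD j) ENNReal.coe_lt_top⟩
          have hcont : Continuous (fun w : ℂ => (W j w.im) ^ N) :=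
            ((hW.cont j).comp Complex.continuous_im).pow N
          have hm : AEStronglyMeasurable (fun w : ℂ => (W j w.im) ^ N) (muS a) :=
            hcont.aestronglyMeasurable
          exact hm.smul (hX.1 j)
        have hst := hs a (h j) C N (Φ j) (W j) (q m j).z (q m j).y (q m j).A (q m j).B ha
          (hh j).1 (hh j).2 (hΦ j) (hW.cont j) (hW.one_le j) (hW.slow j)
          (fun w hw => hCN j w hw) (memW _ Pz) (memW _ Py) (memW _ PB) (umem _ PA j) (umem _ PB j)
          (R j).1 (R j).2
        rw [qs]
        exact hst
      -- A, B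
      have hAB : ∀ i k, i + k = m + 1 → URap a W (fun j => (Dh (h j))^[k] (q i j).A) ∧
          URap a W (fun j => (Dh (h j))^[k] (q i j).B) := by
        intro i
        induction i with
        | zero =>
          intro k hk
          exact ⟨hzero' k, hF k⟩
        | succ i ihi =>
          intro k hk
          obtain ⟨iA, iB⟩ := ihi (k + 1) (by omega)
          have Pz : ∀ i' ≤ k, URap a W (fun j => (Dh (h j))^[i'] (tauh (h j) (q i j).z)) := by
            intro i' hi'
            have := utau h _ hh (P i i' (by omega)).1
            simpa only [it_tauh] using this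
          constructor
          · have e : (fun j => (Dh (h j))^[k] (q (i+1) j).A) =
                fun j w => (Dh (h j))^[k + 1] (q i j).A w + (Dh (h j))^[k]
                  (fun w => (starRingEnd ℂ) (ch (Φ j) (h j) w) *
                    tauh (h j) (fun w => (q i j).B w - (q i j).y w) w) w := by
              funext j
              rw [qs]
              simp only [next]
              rw [it_add, Function.iterate_succ_apply]
            rw [e]
            apply uadd _ _ iA
            apply leib k (fun j w => (starRingEnd ℂ) (ch (Φ j) (h j) w)) _ hcc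
            intro i' hi'
            have h1 := utau h _ hh (usub _ _ (P i i' (by omega)).2.2.2 (P i i' (by omega)).2.1)
            have e2 : (fun j => (Dh (h j))^[i'] (tauh (h j) (fun w => (q i j).B w - (q i j).y w))) =
                fun j => tauh (h j) (fun w => (Dh (h j))^[i'] (q i j).B w -
                  (Dh (h j))^[i'] (q i j).y w) := by
              funext j
              rw [it_tauh, it_sub]
            rw [e2]
            exact h1
          · have e : (fun j => (Dh (h j))^[k] (q (i+1) j).B) =
                fun j w => (Dh (h j))^[k + 1] (q i j).B w - (Dh (h j))^[k]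
                  (fun w => ch (Φ j) (h j) w * tauh (h j) (q i j).z w) w := by
              funext j
              rw [qs]
              simp only [next]
              rw [it_sub, Function.iterate_succ_apply]
            rw [e]
            apply usub _ _ iB
            exact leib k (fun j => ch (Φ j) (h j)) _ hc Pz
      -- top
      have top := hWE (fun j => (q (m+1) j).A) (fun j => (q (m+1) j).B)
        (fun j => (q (m+1) j).z) (fun j => (q (m+1) j).y)
        (hAB (m+1) 0 (by omega)).1 (hAB (m+1) 0 (by omega)).2 R'
      -- z
      have hz : ∀ k i, i + k = m + 1 → URap a W (fun j => (Dh (h j))^[k] (q i j).z) := by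
        intro k
        induction k with
        | zero =>
          intro i hi
          obtain rfl : i = m + 1 := by omega
          exact top.1
        | succ k ih =>
          intro i hi
          have := ih (i + 1) (by omega)
          have e : (fun j => (Dh (h j))^[k + 1] (q i j).z) =
              fun j => (Dh (h j))^[k] (q (i+1) j).z := by
            funext j
            rw [qs, Function.iterate_succ_apply]
            rfl
          rw [e]; exact this
      have hy : ∀ k i, i + k = m + 1 → URap a W (fun j => (Dh (h j))^[k] (q i j).y) := by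
        intro k
        induction k with
        | zero =>
          intro i hi
          obtain rfl : i = m + 1 := by omega
          exact top.2
        | succ k ih =>
          intro i hi
          have h1 := ih (i + 1) (by omega)
          have h2 : URap a W (fun j => (Dh (h j))^[k]
              (fun w => ch (Φ j) (h j) w * tauh (h j) (q i j).z w)) := by
            apply leib k (fun j => ch (Φ j) (h j)) _ hc
            intro i' hi'
            have := utau h _ hh (P i i' (by omega)).1
            simpa only [it_tauh] using this
          have e : (fun j => (Dh (h j))^[k + 1] (q i j).y) =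
              fun j w => (Dh (h j))^[k] (q (i+1) j).y w + (Dh (h j))^[k]
                (fun w => ch (Φ j) (h j) w * tauh (h j) (q i j).z w) w := by
            funext j
            rw [qs, Function.iterate_succ_apply]
            simp only [next]
            rw [it_sub]
            funext w
            ring
          rw [e]
          exact uadd _ _ h1 h2
      refine ⟨?_, R'⟩
      intro i k hik
      rcases Nat.lt_or_ge (i + k) (m + 1) with hlt | hge
      · exact P i k (by omega)
      · have heq : i + k = m + 1 := by omega
        exact ⟨hz k i heq, hy k i heq, (hAB i k heq).1, (hAB i k heq).2⟩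
  intro k
  have := (key k).1 0 k (by omega)
  exact ⟨this.1, this.2.1⟩

end Pool.Agent.Helper58.AB
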