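import Pool.Agent.Helper27.AB.PH3.Goals

/-! # Project AB, module PH3, packet CMW: iterated `t`-derivatives -/

open MeasureTheory Set Filter Topology
open scoped ContDiff

noncomputable section

namespace Pool.Agent.Helper58.AB.CMW3

open Pool.Agent.Helper24.AB Pool.Agent.Helper15.AB Pool.Agent.Helper27.AB

theorem isOpen_strip (a : ℝ) : IsOpen (strip a) :=
  isOpen_lt (continuous_abs.comp Complex.continuous_re) continuous_const

theorem Dw_rep (k : ℕ) (g : ℂ → ℝ) : Dw (List.replicate k true) g = dT^[k] g := by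
  induction k with
  | zero => rfl
  | succ k ih =>
    rw [List.replicate_succ, Function.iterate_succ_apply', ← ih]
    rfl

theorem Dw_app (w : List Bool) (g : ℂ → ℝ) : Dw (w ++ [false]) g = Dw w (dS g) := by
  induction w with
  | nil => rfl
  | cons b w ih =>
    change (if b then dT (Dw (w ++ [false]) g) else dS (Dw (w ++ [false]) g)) =
      (if b then dT (Dw w (dS g)) else dS (Dw w (dS g)))
    rw [ih]

section
variable {E : Type*} [NormedAddCommGroup E] [NormedSpace ℝ E]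

theorem dT_congr {a : ℝ} {g h : ℂ → E} (H : ∀ z ∈ strip a, g z = h z) :
    ∀ z ∈ strip a, dT g z = dT h z := by
  intro z hz
  have e : g =ᶠ[𝓝 z] h := by
    filter_upwards [(isOpen_strip a).mem_nhds hz] with w hw
    exact H w hw
  rw [dT, dT, e.fderiv_eq]

theorem iter_congr {a : ℝ} (k : ℕ) : ∀ {g h : ℂ → E}, (∀ z ∈ strip a, g z = h z) →
    ∀ z ∈ strip a, dT^[k] g z = dT^[k] h z := by
  induction k with
  | zero => exact fun H => H
  | succ k ih =>
    intro g h H z hz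
    rw [Function.iterate_succ_apply, Function.iterate_succ_apply]
    exact ih (dT_congr H) z hz

theorem smooth_dir {a : ℝ} {g : ℂ → E} (hg : ContDiffOn ℝ ∞ g (strip a)) (v : ℂ) :
    ContDiffOn ℝ ∞ (fun w => fderiv ℝ g w v) (strip a) := by
  have h1 : ContDiffOn ℝ ∞ (fderiv ℝ g) (strip a) :=
    hg.fderiv_of_isOpen (isOpen_strip a) (by simp)
  exact h1.clm_apply contDiffOn_const

theorem smooth_dT {a : ℝ} {g : ℂ → E} (hg : ContDiffOn ℝ ∞ g (strip a)) :
    ContDiffOn ℝ ∞ (dT g) (strip a) := smooth_dir hg Complex.I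

theorem smooth_dS {a : ℝ} {g : ℂ → E} (hg : ContDiffOn ℝ ∞ g (strip a)) :
    ContDiffOn ℝ ∞ (dS g) (strip a) := smooth_dir hg 1

theorem smooth_iter {a : ℝ} (k : ℕ) {g : ℂ → E} (hg : ContDiffOn ℝ ∞ g (strip a)) :
    ContDiffOn ℝ ∞ (dT^[k] g) (strip a) := by
  induction k with
  | zero => exact hg
  | succ k ih =>
    rw [Function.iterate_succ_apply']
    exact smooth_dT ih

theorem diffAt {a : ℝ} {g : ℂ → E} (hg : ContDiffOn ℝ ∞ g (strip a)) {z : ℂ} (hz : z ∈ strip a) :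
    DifferentiableAt ℝ g z :=
  (hg.contDiffAt ((isOpen_strip a).mem_nhds hz)).differentiableAt (by simp)

end

theorem dir_cast {f : ℂ → ℝ} {z : ℂ} (hf : DifferentiableAt ℝ f z) (v : ℂ) :
    fderiv ℝ (fun w => (f w : ℂ)) z v = ((fderiv ℝ f z v : ℝ) : ℂ) := by
  have h := (Complex.ofRealCLM.hasFDerivAt (x := f z)).comp z hf.hasFDerivAt
  have h2 : HasFDerivAt (fun w => (f w : ℂ)) (Complex.ofRealCLM.comp (fderiv ℝ f z)) z := h
  rw [h2.fderiv]
  rfl

theorem symm {a : ℝ} {f : ℂ → ℝ} (hf : ContDiffOn ℝ ∞ f (strip a)) {z : ℂ} (hz : z ∈ strip a) :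
    dT (dS f) z = dS (dT f) z := by
  have h1 : ContDiffAt ℝ ∞ f z := hf.contDiffAt ((isOpen_strip a).mem_nhds hz)
  have h2 : DifferentiableAt ℝ (fderiv ℝ f) z :=
    diffAt (hf.fderiv_of_isOpen (isOpen_strip a) (by simp)) hz
  have h3 : ∀ v v' : ℂ, fderiv ℝ (fun w => fderiv ℝ f w v) z v' =
      fderiv ℝ (fderiv ℝ f) z v' v := by
    intro v v'
    have h4 : HasFDerivAt (fun w => fderiv ℝ f w v)
        ((ContinuousLinearMap.apply ℝ ℝ v).comp (fderiv ℝ (fderiv ℝ f) z)) z :=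
      (ContinuousLinearMap.apply ℝ ℝ v).hasFDerivAt.comp z h2.hasFDerivAt
    rw [h4.fderiv]
    rfl
  have h5 : IsSymmSndFDerivAt ℝ f z := h1.isSymmSndFDerivAt (by
    rw [minSmoothness_of_isRCLikeNormedField]
    exact WithTop.coe_le_coe.2 (le_top : (2 : ℕ∞) ≤ ⊤))
  change fderiv ℝ (fun w => fderiv ℝ f w 1) z Complex.I =
    fderiv ℝ (fun w => fderiv ℝ f w Complex.I) z 1
  rw [h3, h3]
  exact h5.eq _ _

theorem comb {a : ℝ} (k : ℕ) {g h : ℂ → ℝ} (hg : ContDiffOn ℝ ∞ g (strip a))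
    (hh : ContDiffOn ℝ ∞ h (strip a)) : ∀ z ∈ strip a,
    dT^[k] (fun w => ((g w : ℂ) - Complex.I * (h w : ℂ)) / 2) z =
      (((dT^[k] g z : ℝ) : ℂ) - Complex.I * ((dT^[k] h z : ℝ) : ℂ)) / 2 := by
  induction k with
  | zero => exact fun z _ => rfl
  | succ k ih =>
    intro z hz
    rw [Function.iterate_succ_apply', Function.iterate_succ_apply', Function.iterate_succ_apply',
      dT_congr ih z hz]
    have g1 := diffAt (smooth_iter k hg) hz
    have h1 := diffAt (smooth_iter k hh) hz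
    have g2 : HasFDerivAt (fun w => ((dT^[k] g w : ℝ) : ℂ))
        (Complex.ofRealCLM.comp (fderiv ℝ (dT^[k] g) z)) z :=
      (Complex.ofRealCLM.hasFDerivAt (x := dT^[k] g z)).comp z g1.hasFDerivAt
    have h2 : HasFDerivAt (fun w => ((dT^[k] h w : ℝ) : ℂ))
        (Complex.ofRealCLM.comp (fderiv ℝ (dT^[k] h) z)) z :=
      (Complex.ofRealCLM.hasFDerivAt (x := dT^[k] h z)).comp z h1.hasFDerivAt
    have h4 : HasFDerivAt (fun w => (((dT^[k] g w : ℝ) : ℂ) -
        Complex.I * ((dT^[k] h w : ℝ) : ℂ)) / 2)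
        ((2⁻¹ : ℂ) • (Complex.ofRealCLM.comp (fderiv ℝ (dT^[k] g) z) -
          Complex.I • Complex.ofRealCLM.comp (fderiv ℝ (dT^[k] h) z))) z := by
      have h3 := (g2.sub (h2.const_mul Complex.I)).const_mul (2⁻¹ : ℂ)
      refine h3.congr_of_eventuallyEq (Eventually.of_forall fun w => ?_)
      change _ = (2⁻¹ : ℂ) * (((dT^[k] g w : ℝ) : ℂ) - Complex.I * ((dT^[k] h w : ℝ) : ℂ))
      ring
    rw [dT, h4.fderiv]
    change (2⁻¹ : ℂ) * (((fderiv ℝ (dT^[k] g) z Complex.I : ℝ) : ℂ) -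
      Complex.I * ((fderiv ℝ (dT^[k] h) z Complex.I : ℝ) : ℂ)) =
      (((fderiv ℝ (dT^[k] g) z Complex.I : ℝ) : ℂ) -
      Complex.I * ((fderiv ℝ (dT^[k] h) z Complex.I : ℝ) : ℂ)) / 2
    ring

theorem cmw : S_CMW := by
  intro a f hf k z hz
  have hS := smooth_dS hf
  have hT := smooth_dT hf
  refine ⟨?_, ?_⟩
  · rw [Dw_rep, Function.iterate_succ_apply]
  · have e1 : ∀ w ∈ strip a, dz (fun w => (f w : ℂ)) w =
        (((dS f w : ℝ) : ℂ) - Complex.I * ((dT f w : ℝ) : ℂ)) / 2 := by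
      intro w hw
      have h1 := diffAt hf hw
      rw [dz, dS, dT, dir_cast h1, dir_cast h1]
      rfl
    rw [iter_congr (k + 1) e1 z hz, comb (k + 1) hS hT z hz, Dw_app, Dw_rep, Dw_rep]
    have e2 : dT^[k + 1] (dS f) z = dT^[k] (dS (dT f)) z := by
      rw [Function.iterate_succ_apply]
      exact iter_congr k (fun w hw => symm hf hw) z hz
    rw [e2]

end Pool.Agent.Helper58.AB.CMW3
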